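import Pool.Agent.helper58.FI4E.Spec

set_option autoImplicit false

namespace Pool.Agent.FI4E

open Pool.Agent.helper58.DC Pool.Agent.DI Pool.Agent.GR Pool.Agent.OB Pool.Agent.DR Pool.Agent.FI Pool.Agent.FI3 Pool.Agent.FI4 Pool.Agent.FI4I

section

variable {G : Type} [Group G]

theorem BAA_ai (α : MulAut G) (x : G) : α (α⁻¹ x) = x := MulAut.apply_inv_self G α x

theorem BAA_ia (α : MulAut G) (x : G) : α⁻¹ (α x) = x := MulAut.inv_apply_self G α x

theorem BAA_inj (α : MulAut G) : Function.Injective α.toMonoidHom := α.injective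

theorem BAA_mem' (α : MulAut G) (P : Subgroup G) (x : G) : α x ∈ am α P ↔ x ∈ P := by
  rw [mem_am, BAA_ia]

theorem BAA_amF (α : MulAut G) (P : Subgroup G) : am α⁻¹ (am α P) = P := by
  rw [← am_mul, inv_mul_cancel, am_one]

theorem BAA_fF (α : MulAut G) (ψ : G → ℂ) : funMap α⁻¹ (funMap α ψ) = ψ := by
  rw [← funMap_mul, inv_mul_cancel]
  funext x
  simp [funMap]

theorem BAA_cz (α : MulAut G) (P : Subgroup G) : cz (am α P) = am α (cz P) := by
  ext x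
  rw [mem_am, Subgroup.mem_centralizer_iff, Subgroup.mem_centralizer_iff]
  constructor
  · intro h p hp
    have h2 := h (α p) ((BAA_mem' α P p).2 hp)
    have h3 := congrArg (⇑α⁻¹) h2
    rw [map_mul, map_mul, BAA_ia] at h3
    exact h3
  · intro h y hy
    have h2 := h (α⁻¹ y) (mem_am.1 hy)
    rw [← map_mul, ← map_mul] at h2
    exact (α⁻¹).injective h2

theorem BAA_nz (α : MulAut G) (P : Subgroup G) : nz (am α P) = am α (nz P) := by
  ext x
  rw [mem_am, Subgroup.mem_normalizer_iff, Subgroup.mem_normalizer_iff]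
  constructor
  · intro h p
    have h2 := h (α p)
    rw [BAA_mem', mem_am, map_mul, map_mul, map_inv, BAA_ia] at h2
    exact h2
  · intro h y
    have h2 := h (α⁻¹ y)
    rw [mem_am, mem_am, map_mul, map_mul, map_inv]
    exact h2

theorem BAA_inf (α : MulAut G) (P Q : Subgroup G) : am α (P ⊓ Q) = am α P ⊓ am α Q := by
  ext x
  rw [Subgroup.mem_inf, mem_am, mem_am, mem_am, Subgroup.mem_inf]

theorem BAA_top (α : MulAut G) : am α (⊤ : Subgroup G) = ⊤ := by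
  ext x
  rw [mem_am]
  simp

theorem BAA_bot (α : MulAut G) : am α (⊥ : Subgroup G) = ⊥ := by
  ext x
  rw [mem_am]
  simp

theorem BAA_card (α : MulAut G) (P : Subgroup G) : Nat.card (am α P) = Nat.card P :=
  Subgroup.card_map_of_injective (BAA_inj α)

theorem BAA_pg (p : ℕ) (α : MulAut G) (P : Subgroup G) : IsPGroup p (am α P) ↔ IsPGroup p P :=
  ⟨fun h => h.of_equiv (P.equivMapOfInjective α.toMonoidHom (BAA_inj α)).symm,
    fun h => h.of_equiv (P.equivMapOfInjective α.toMonoidHom (BAA_inj α))⟩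

theorem BAA_op [Finite G] (p : ℕ) (α : MulAut G) (P : Subgroup G) (h : IsOp p ⊤ P) : am α P = P := by
  have h1 : am α P ≤ P := by
    apply h.2
    refine ⟨le_top, (BAA_pg p α P).2 h.1.2.1, ?_⟩
    have h2 : nz P = ⊤ := top_le_iff.1 h.1.2.2
    change ⊤ ≤ nz (am α P)
    rw [BAA_nz, h2, BAA_top]
  exact Subgroup.eq_of_le_of_card_ge h1 (BAA_card α P).ge

theorem BAA_Cz (α : MulAut G) (L : Subgroup G) (y : G) : am α (Cz L y) = Cz (am α L) (α y) := by
  ext x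
  rw [mem_am]
  unfold Cz
  rw [Subgroup.mem_inf, Subgroup.mem_inf, mem_am, Subgroup.mem_centralizer_singleton_iff,
    Subgroup.mem_centralizer_singleton_iff]
  refine and_congr Iff.rfl ⟨fun h => ?_, fun h => ?_⟩
  · have h1 := congrArg (⇑α) h
    rw [map_mul, map_mul, BAA_ai] at h1
    exact h1
  · have h1 := congrArg (⇑α⁻¹) h
    rw [map_mul, map_mul, BAA_ia] at h1
    exact h1

theorem BAA_cc (α : MulAut G) (ψ z : G → ℂ) : cc (funMap α ψ) z = cc ψ fun x => z (α x) := by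
  unfold cc
  have h1 : funMap α ψ 1 = ψ 1 := by
    change ψ (α⁻¹ 1) = ψ 1
    rw [map_one]
  rw [h1]
  congr 1
  symm
  apply finsum_eq_of_bijective (⇑α) α.bijective
  intro x
  change z (α x) * ψ x = z (α x) * ψ (α⁻¹ (α x))
  rw [BAA_ia]

theorem BAA_SB1 {M : Ideal (integralClosure ℤ ℂ)} (α : MulAut G) {L : Subgroup G} {η ψ : G → ℂ} (h : SB M L η ψ) :
    SB M (am α L) (funMap α η) (funMap α ψ) := by
  intro z hz hi
  rw [BAA_cc, BAA_cc]
  refine h _ ⟨fun l hl x => ?_, fun x hx => ?_⟩ fun x => hi _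
  · have h2 := hz.1 _ ((BAA_mem' α L l).2 hl) (α x)
    change z (α (l * x * l⁻¹)) = z (α x)
    rw [map_mul, map_mul, map_inv]
    exact h2
  · refine hz.2 _ fun h1 => hx ?_
    exact (BAA_mem' α L x).1 h1

theorem BAA_SB {M : Ideal (integralClosure ℤ ℂ)} (α : MulAut G) (L : Subgroup G) (η ψ : G → ℂ) :
    SB M L η ψ ↔ SB M (am α L) (funMap α η) (funMap α ψ) := by
  constructor
  · exact BAA_SB1 α
  · intro h
    have h1 := BAA_SB1 α⁻¹ h
    rw [BAA_amF, BAA_fF, BAA_fF] at h1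
    exact h1

theorem BAA_IrrOn (hIF : IF_stmt) [Finite G] (α : MulAut G) (L : Subgroup G) (ψ : G → ℂ) :
    ψ ∈ IrrOn L ↔ funMap α ψ ∈ IrrOn (am α L) := by
  constructor
  · intro h
    exact ((hIF G L).2 ψ h).2.2 α
  · intro h
    have h1 : funMap α⁻¹ (funMap α ψ) ∈ IrrOn (am α⁻¹ (am α L)) := ((hIF G _).2 _ h).2.2 α⁻¹
    rw [BAA_fF, BAA_amF] at h1
    exact h1

theorem BAA_EE (p : ℕ) (α : MulAut G) (L : Subgroup G) (η ψ : G → ℂ) :
    EE p (am α L) (funMap α η) (funMap α ψ) = EE p L η ψ := by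
  unfold EE
  rw [BAA_card]
  congr 1
  symm
  apply finsum_mem_eq_of_bijOn (⇑α)
  · refine ⟨?_, α.injective.injOn, ?_⟩
    · rintro x ⟨hx, hp⟩
      refine ⟨(BAA_mem' α L x).2 hx, ?_⟩
      unfold PReg at hp ⊢
      rw [MulEquiv.orderOf_eq]
      exact hp
    · rintro x ⟨hx, hp⟩
      refine ⟨α⁻¹ x, ⟨mem_am.1 hx, ?_⟩, BAA_ai α x⟩
      unfold PReg at hp ⊢
      rw [MulEquiv.orderOf_eq]
      exact hp
  · intro x _
    change η x * ψ x⁻¹ = η (α⁻¹ (α x)) * ψ (α⁻¹ (α x)⁻¹)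
    rw [map_inv, BAA_ia]

theorem BAA_nrm (α : MulAut G) (C : Finset (Subgroup G)) (h : FxC α C) : am α (nrm C) = nrm C := by
  ext x
  rw [mem_am]
  unfold nrm
  simp only [Subgroup.mem_iInf]
  refine forall_congr' fun Q => forall_congr' fun hQ => ?_
  have h1 : x ∈ am α (nz Q) ↔ x ∈ nz Q := by
    rw [← BAA_nz, h Q hQ]
  rw [← h1, mem_am]

theorem BAA_cjS (α : MulAut G) (g : G) (P : Subgroup G) : am α (cjS g P) = cjS (α g) (am α P) := by
  ext x
  rw [mem_am, mem_cjS, mem_cjS, mem_am, map_mul, map_mul, map_inv, BAA_ia]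

theorem BAA_cjF (α : MulAut G) (g : G) (ψ : G → ℂ) : funMap α (cjF g ψ) = cjF (α g) (funMap α ψ) := by
  funext x
  rw [cjF_apply]
  change cjF g ψ (α⁻¹ x) = ψ (α⁻¹ ((α g)⁻¹ * x * α g))
  rw [cjF_apply, map_mul, map_mul, map_inv, BAA_ia]

theorem BAA_inn (hIF : IF_stmt) [Finite G] (L : Subgroup G) (ψ : G → ℂ) (g : G) (hg : g ∈ L) (hψ : ψ ∈ IrrOn L) :
    cjF g ψ = ψ ∧ cjS g L = L := by
  constructor
  · funext x
    rw [cjF_apply]
    have h2 := ((hIF G L).2 ψ hψ).2.1 g⁻¹ (L.inv_mem hg) x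
    rw [inv_inv] at h2
    exact h2
  · ext x
    rw [mem_cjS, L.mul_mem_cancel_right hg, L.mul_mem_cancel_left (L.inv_mem hg)]

end

theorem BAA (hIF : IF_stmt) (hIM : IM_stmt) (hTI : TI_stmt) : BAA_stmt := by
  intro G _ _ M p α P Q L η ψ χ
  have hI : ∀ χ : G → ℂ, χ ∈ Irr G ↔ funMap α χ ∈ Irr G := by
    intro χ
    rw [← hTI G χ, ← hTI G (funMap α χ), BAA_IrrOn hIF α ⊤ χ, BAA_top]
  have hC : ∀ χ : G → ℂ, χ ∈ Irr G → ∀ g : G, cjF g χ = χ := by
    intro χ hχ g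
    exact (BAA_inn hIF ⊤ χ g (Subgroup.mem_top _) ((hTI G χ).2 hχ)).1
  refine ⟨⟨BAA_cz α P, BAA_nz α P, ?_, BAA_inf α P Q, BAA_card α P, BAA_top α, BAA_bot α, BAA_pg p α P, BAA_op p α P⟩,
    BAA_Cz α L, BAA_IrrOn hIF α L ψ, BAA_SB α L η ψ, hI χ, (hIM G M η ψ ψ).2.2.2 α, BAA_EE p α L η ψ, BAA_nrm α, ?_, ?_, ?_⟩
  · exact Subgroup.map_le_map_iff_of_injective (BAA_inj α)
  · exact fun g => ⟨BAA_cjS α g P, BAA_cjF α g ψ⟩
  · exact fun g hg hψ => BAA_inn hIF L ψ g hg hψ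
  · intro g hχ
    refine ⟨hC χ hχ g, ?_⟩
    unfold Stb
    rw [funMap_al, hC _ ((hI χ).1 hχ) g]

end Pool.Agent.FI4E
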